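import Pool.Agent.Lib.MP_271836_gt.NilMain

/-!
# Shape equivalences of weak solenoids over closed infra-nilmanifolds
-/

namespace Pool.Agent.Results.MP_271836_gt.InfraNilSolenoids

open Pool.Agent.Lib.MP_271836_gt

/-- Every shape equivalence between inverse limits of sequences of closed infra-nilmanifolds of
dimension `n` with finite covering bonding maps is induced by a homeomorphism. In particular such
spaces are homeomorphic as soon as they are shape equivalent. -/
theorem result (n : ℕ) (S T : Tower (IsInfraNilmanifold n)) (Φ : ShapeEquiv S.Limit T.Limit) :
    ∃ F : T.Limit ≃ₜ S.Limit, Φ.InducedBy (F : C(T.Limit, S.Limit)) :=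
  nil_realize n S T Φ

end Pool.Agent.Results.MP_271836_gt.InfraNilSolenoids
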