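import Pool.Agent.Lib.MP_271836_gt.Main

/-!
# Shape equivalences of weak solenoids over a rigid collection of closed manifolds
-/

namespace Pool.Agent.Results.MP_271836_gt.SolenoidRigidity

open Pool.Agent.Lib.MP_271836_gt

/-- Let `𝒜` be a collection of closed `n`-manifolds which contains all connected finite covering
spaces of its members. Then every shape equivalence between inverse limits of sequences of
members with finite covering bonding maps is induced by a homeomorphism, if and only if every
homotopy equivalence between members of `𝒜` is homotopic to a homeomorphism. -/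
theorem result (n : ℕ) (𝒜 : SpaceClass) (h𝒜 : IsCoverClosed n 𝒜) :
    (∀ (S T : Tower 𝒜) (Φ : ShapeEquiv S.Limit T.Limit),
      ∃ F : T.Limit ≃ₜ S.Limit, Φ.InducedBy (F : C(T.Limit, S.Limit))) ↔
    (∀ (X Y : Type) [TopologicalSpace X] [TopologicalSpace Y], 𝒜 X → 𝒜 Y →
      ∀ k : ContinuousMap.HomotopyEquiv X Y, ∃ φ : X ≃ₜ Y, k.toFun.Homotopic (φ : C(X, Y))) :=
  main_iff h𝒜

end Pool.Agent.Results.MP_271836_gt.SolenoidRigidity
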