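import Pool.Agent.Lib.MP_271836_gt.Twist

/-!
# The shape class of a weak solenoid over a Borel collection consists of its twists
-/

namespace Pool.Agent.Results.MP_271836_gt.TwistClassification

open Pool.Agent.Lib.MP_271836_gt

/-- Let `𝒜` be a collection of closed `n`-manifolds which contains all connected finite covering
spaces of its members, such that every closed manifold homotopy equivalent to a member is
homeomorphic to it. Let `S` be an inverse sequence of members with finite covering bonding maps.
For every space `X` the following are equivalent:
* `X` is shape equivalent to `S.Limit`, and `X` is the limit of an inverse sequence of closed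
  manifolds with finite covering bonding maps;
* the same, with an inverse sequence of members of `𝒜`;
* `X` is homeomorphic to the pullback of the projection `S.Limit → S.B m` along a self homotopy
  equivalence of `S.B m`, for some `m`. -/
theorem result {n : ℕ} {𝒜 : SpaceClass} (h𝒜 : IsBorel n 𝒜) (S : Tower 𝒜) (X : Type)
    [TopologicalSpace X] :
    List.TFAE [
      Nonempty (ShapeEquiv S.Limit X) ∧ ∃ T : Tower IsClosedMfd, Nonempty (X ≃ₜ T.Limit),
      Nonempty (ShapeEquiv S.Limit X) ∧ ∃ T : Tower 𝒜, Nonempty (X ≃ₜ T.Limit),
      ∃ (m : ℕ) (k : letI := S.top; ContinuousMap.HomotopyEquiv (S.B m) (S.B m)),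
        letI := S.top
        Nonempty (X ≃ₜ S.Twist m k.toFun)] :=
  twist_tfae h𝒜 S X

end Pool.Agent.Results.MP_271836_gt.TwistClassification
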