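import Pool.Agent.Lib.MP_271836_gt.Universal

/-!
# Weak solenoids without finite coverings over a Borel collection are determined by their shape
-/

namespace Pool.Agent.Results.MP_271836_gt.UniversalSolenoids

open Pool.Agent.Lib.MP_271836_gt

/-- Let `𝒜` be a collection of closed `n`-manifolds which contains all connected finite covering
spaces of its members, such that every closed manifold homotopy equivalent to a member is
homeomorphic to it. Let `S` be an inverse sequence of members with finite covering bonding maps,
and suppose that its limit has no nontrivial finite connected covering space. Then every limit of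
an inverse sequence of closed manifolds with finite covering bonding maps which is shape
equivalent to `S.Limit` is homeomorphic to `S.Limit`. -/
theorem result {n : ℕ} {𝒜 : SpaceClass} (h𝒜 : IsBorel n 𝒜) (S : Tower 𝒜)
    (hS : NoFiniteCover S.Limit) (T : Tower IsClosedMfd)
    (h : Nonempty (ShapeEquiv S.Limit T.Limit)) : Nonempty (S.Limit ≃ₜ T.Limit) :=
  homeo_of_liftsEquivalences h𝒜 S (liftsEquivalences_of_noFiniteCover h𝒜.toIsCoverClosed S hS) T h

end Pool.Agent.Results.MP_271836_gt.UniversalSolenoids
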